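import Pool.Agent.D0H56.MD.Defs

/-! Project MD, module AUT. -/

set_option autoImplicit false

open Module Polynomial

namespace Pool.Agent.D0H70.MD

open Pool.Agent.D0H56.MD

theorem t_AUT : S_AUT := by
  intro K _ _ x hx hru b b' hb hb' hne τ hτ
  rw [map_pow] at hτ
  -- the orbit of `x` is finite
  have hroot : ∀ k : ℕ, (τ^[k]) x ∈ ((minpoly ℚ x).rootSet K) := by
    intro k
    have hne0 : minpoly ℚ x ≠ 0 := minpoly.ne_zero (Algebra.IsIntegral.isIntegral x)
    induction k with
    | zero =>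
      rw [Polynomial.mem_rootSet]
      exact ⟨hne0, minpoly.aeval ℚ x⟩
    | succ k ih =>
      rw [Polynomial.mem_rootSet] at ih ⊢
      refine ⟨hne0, ?_⟩
      rw [Function.iterate_succ', Function.comp]
      have h1 : aeval (τ ((τ^[k]) x)) (minpoly ℚ x) = τ (aeval ((τ^[k]) x) (minpoly ℚ x)) := by
        have := Polynomial.aeval_algHom_apply (τ.toRatAlgHom) ((τ^[k]) x) (minpoly ℚ x)
        exact this
      rw [h1, ih.2, map_zero]
  obtain ⟨i, j, hij, he⟩ := Finite.exists_ne_map_eq_of_infinite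
    (fun k : ℕ => (⟨(τ^[k]) x, hroot k⟩ : (minpoly ℚ x).rootSet K))
  have he' : (τ^[i]) x = (τ^[j]) x := congrArg Subtype.val he
  have hinj : Function.Injective (τ : K → K) := τ.injective
  obtain ⟨k, hk, hkx⟩ : ∃ k : ℕ, 0 < k ∧ (τ^[k]) x = x := by
    rcases lt_or_gt_of_ne hij with h | h
    · refine ⟨j - i, by omega, ?_⟩
      have h1 : (τ^[i]) ((τ^[j - i]) x) = (τ^[i]) x := by
        rw [← Function.iterate_add_apply, Nat.add_sub_cancel' h.le, he']
      exact hinj.iterate i h1
    · refine ⟨i - j, by omega, ?_⟩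
      have h1 : (τ^[j]) ((τ^[i - j]) x) = (τ^[j]) x := by
        rw [← Function.iterate_add_apply, Nat.add_sub_cancel' h.le, he']
      exact hinj.iterate j h1
  have hpow : ∀ m : ℕ, ((τ^[m]) x) ^ (b ^ m) = x ^ (b' ^ m) := by
    intro m
    induction m with
    | zero => simp
    | succ m ih =>
      have hit : ∀ (y : K) (e : ℕ), (τ^[m]) (y ^ e) = ((τ^[m]) y) ^ e := by
        intro y e
        induction m with
        | zero => rfl
        | succ m _ => 
          rw [← RingHom.coe_pow, map_pow]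
      rw [Function.iterate_succ_apply, pow_succ b m, mul_comm (b ^ m) b, pow_mul, ← hit, hτ, hit,
        ← pow_mul, mul_comm b', pow_mul, ih, ← pow_mul, pow_succ]
  have h1 := hpow k
  rw [hkx] at h1
  have h2 : b ^ k ≠ b' ^ k := fun h => hne (Nat.pow_left_injective (by omega : k ≠ 0) h)
  rcases lt_or_gt_of_ne h2 with h | h
  · apply hru (b' ^ k - b ^ k) (by omega)
    have h3 : x ^ (b ^ k) * x ^ (b' ^ k - b ^ k) = x ^ (b ^ k) * 1 := by
      rw [← pow_add, Nat.add_sub_cancel' h.le, mul_one, h1]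
    exact mul_left_cancel₀ (pow_ne_zero _ hx) h3
  · apply hru (b ^ k - b' ^ k) (by omega)
    have h3 : x ^ (b' ^ k) * x ^ (b ^ k - b' ^ k) = x ^ (b' ^ k) * 1 := by
      rw [← pow_add, Nat.add_sub_cancel' h.le, mul_one, h1]
    exact mul_left_cancel₀ (pow_ne_zero _ hx) h3

end Pool.Agent.D0H70.MD
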