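import Pool.Agent.D0H56.MD.Defs

/-! Project MD, module FIB. -/

set_option autoImplicit false

open Module Polynomial

namespace Pool.Agent.D0H70.MD

open Pool.Agent.D0H56.MD

/-- the minimal polynomial over `ℚ` of a root of a monic irreducible integer polynomial -/
lemma minpoly_eq {K : Type} [Field K] [NumberField K] {x : K} {f : ℤ[X]} (hm : f.Monic)
    (hi : Irreducible f) (hx : aeval x f = 0) :
    minpoly ℚ x = f.map (algebraMap ℤ ℚ) := by
  symm
  apply minpoly.eq_of_irreducible_of_monic
  · exact (hm.irreducible_iff_irreducible_map_fraction_map (K := ℚ)).1 hi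
  · rw [aeval_map_algebraMap]; exact hx
  · exact hm.map _

lemma fib_card {K : Type} [Field K] [NumberField K] {x : K} {f : ℤ[X]} (hm : f.Monic)
    (hi : Irreducible f) (hx : aeval x f = 0) (r : ℂ) (hr : aeval r f = 0) :
    Nat.card {σ : K →+* ℂ // σ x = r} = finrank (IntermediateField.adjoin ℚ {x}) K := by
  have hint : IsIntegral ℚ x := Algebra.IsIntegral.isIntegral x
  have hmem : r ∈ (minpoly ℚ x).aroots ℂ := by
    rw [mem_aroots]
    refine ⟨minpoly.ne_zero hint, ?_⟩
    rw [minpoly_eq hm hi hx, aeval_map_algebraMap]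
    exact hr
  let f₀ : IntermediateField.adjoin ℚ {x} →ₐ[ℚ] ℂ :=
    (IntermediateField.algHomAdjoinIntegralEquiv ℚ hint).symm ⟨r, hmem⟩
  have hf₀ : f₀ (IntermediateField.AdjoinSimple.gen ℚ x) = r :=
    IntermediateField.algHomAdjoinIntegralEquiv_symm_apply_gen ℚ hint ⟨r, hmem⟩
  let _ : Algebra (IntermediateField.adjoin ℚ {x}) ℂ := f₀.toRingHom.toAlgebra
  have hres : ∀ σ : K →+* ℂ, σ x = r → ∀ y : IntermediateField.adjoin ℚ {x}, σ y = f₀ y := by
    intro σ hσ y
    have h1 : (σ.toRatAlgHom.comp (IntermediateField.val (IntermediateField.adjoin ℚ {x}))) = f₀ := by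
      apply IntermediateField.adjoin_algHom_ext
      intro z hz
      rw [Set.mem_singleton_iff] at hz
      subst hz
      exact hσ.trans hf₀.symm
    exact congrArg (fun g : IntermediateField.adjoin ℚ {x} →ₐ[ℚ] ℂ => g y) h1
  have e : {σ : K →+* ℂ // σ x = r} ≃ (K →ₐ[IntermediateField.adjoin ℚ {x}] ℂ) :=
    { toFun := fun σ => { σ.1 with commutes' := fun y => hres σ.1 σ.2 y }
      invFun := fun τ => ⟨τ.toRingHom, by
        have h1 := τ.commutes (IntermediateField.AdjoinSimple.gen ℚ x)
        exact h1.trans hf₀⟩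
      left_inv := fun σ => rfl
      right_inv := fun τ => rfl }
  rw [Nat.card_congr e, Nat.card_eq_fintype_card]
  have : FiniteDimensional (IntermediateField.adjoin ℚ {x}) K :=
    FiniteDimensional.right ℚ (IntermediateField.adjoin ℚ {x}) K
  exact AlgHom.card (IntermediateField.adjoin ℚ {x}) K ℂ

lemma fin_tower {K : Type} [Field K] [NumberField K] {x : K} {f : ℤ[X]} (hm : f.Monic)
    (hi : Irreducible f) (hx : aeval x f = 0) :
    finrank (IntermediateField.adjoin ℚ {x}) K * f.natDegree = finrank ℚ K := by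
  have hint : IsIntegral ℚ x := Algebra.IsIntegral.isIntegral x
  have h1 := IntermediateField.adjoin.finrank hint
  rw [minpoly_eq hm hi hx, hm.natDegree_map] at h1
  rw [← h1, mul_comm]
  exact Module.finrank_mul_finrank ℚ (IntermediateField.adjoin ℚ {x}) K

theorem t_FIB : S_FIB := by
  intro K _ _ x f hm hi hx
  refine ⟨fun r hr => ?_, ?_⟩
  · rw [fib_card hm hi hx r hr]
    exact fin_tower hm hi hx
  · set m := finrank (IntermediateField.adjoin ℚ {x}) K with hmdef
    have hmd : m * f.natDegree = finrank ℚ K := fin_tower hm hi hx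
    classical
    set R : Finset ℂ := (f.map (Int.castRingHom ℂ)).roots.toFinset with hR
    have hf0 : f.map (Int.castRingHom ℂ) ≠ 0 := (hm.map _).ne_zero
    have hmemR : ∀ r : ℂ, r ∈ R ↔ aeval r f = 0 := by
      intro r
      rw [hR, Multiset.mem_toFinset, mem_roots hf0, IsRoot.def, eval_map]
      rfl
    have hmap : ∀ σ : K →+* ℂ, σ x ∈ R := by
      intro σ
      rw [hmemR]
      have h1 := Polynomial.aeval_algHom_apply (σ.toIntAlgHom) x f
      have h2 : aeval (σ x) f = σ (aeval x f) := h1
      rw [h2, hx, map_zero]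
    have h1 : ∏ σ : K →+* ℂ, max 1 ‖σ x‖ = ∏ r ∈ R, (max 1 ‖r‖) ^ m := by
      rw [← Finset.prod_fiberwise_of_maps_to (fun σ _ => hmap σ)]
      refine Finset.prod_congr rfl fun r hr => ?_
      have h2 : ∏ σ ∈ Finset.univ.filter (fun σ : K →+* ℂ => σ x = r), max 1 ‖σ x‖
          = ∏ σ ∈ Finset.univ.filter (fun σ : K →+* ℂ => σ x = r), max 1 ‖r‖ := by
        refine Finset.prod_congr rfl fun σ hσ => ?_
        rw [(Finset.mem_filter.1 hσ).2]
      rw [h2, Finset.prod_const]
      congr 1
      rw [hmdef, ← fib_card hm hi hx r ((hmemR r).1 hr), Nat.card_eq_fintype_card,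
        Fintype.card_subtype]
    have hnd : (f.map (Int.castRingHom ℂ)).roots.Nodup := by
      apply nodup_roots
      have h3 : (f.map (algebraMap ℤ ℚ)).Separable := by
        rw [← minpoly_eq hm hi hx]
        exact (minpoly.irreducible (Algebra.IsIntegral.isIntegral x)).separable
      have h4 := h3.map (f := algebraMap ℚ ℂ)
      rw [Polynomial.map_map] at h4
      have h6 : (algebraMap ℚ ℂ).comp (algebraMap ℤ ℚ) = Int.castRingHom ℂ := RingHom.ext_int _ _
      rw [h6] at h4
      exact h4
    have h5 : MM f = ∏ r ∈ R, max 1 ‖r‖ := by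
      rw [MM, mahlerMeasure_eq_leadingCoeff_mul_prod_roots]
      rw [(hm.map (Int.castRingHom ℂ)).leadingCoeff, norm_one, one_mul, Finset.prod, hR,
        Multiset.toFinset_val, hnd.dedup]
    rw [h1, h5, Finset.prod_pow, ← pow_mul, hmd]

end Pool.Agent.D0H70.MD
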